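import Pool.Agent.helper29.PQ.Spec

namespace Pool.Agent.helper29.PQ

open Finset Filter

private theorem pc_one (T : Finset ℕ) : (pc T 1 : ℝ) = (#T : ℝ) ^ 2 := by
  have h : ({x ∈ T ×ˢ T | x.1 ≡ x.2 [MOD 1]} : Finset (ℕ × ℕ)) = T ×ˢ T := by
    refine filter_true_of_mem fun x _ => ?_
    exact Nat.modEq_one
  rw [pc, h, card_product]
  push_cast
  ring

private theorem not_dvd_of {w q p : ℕ} (hq : Nat.Coprime q (primorial w)) (hp : p.Prime)
    (hpq : p ∣ q) : w < p := by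
  by_contra hle
  have h1 : p ∣ primorial w := by
    unfold primorial
    exact dvd_prod_of_mem (fun p => p) (mem_filter.2 ⟨mem_range.2 (by omega), hp⟩)
  exact Nat.Prime.not_dvd_one hp (hq ▸ Nat.dvd_gcd hpq h1)

private theorem ratio_eq {q : ℕ} (hq : Squarefree q) :
    (q : ℝ) / (Nat.totient q : ℝ) ^ 2 = ∏ p ∈ q.primeFactors, (p : ℝ) / ((p : ℝ) - 1) ^ 2 := by
  have hq0 : q ≠ 0 := hq.ne_zero
  have h1 : Nat.totient q = ∏ p ∈ q.primeFactors, (p - 1) := by
    have := Nat.totient_mul_prod_primeFactors q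
    rw [Nat.prod_primeFactors_of_squarefree hq, mul_comm] at this
    exact Nat.eq_of_mul_eq_mul_left (Nat.pos_of_ne_zero hq0) this
  have h2 : (Nat.totient q : ℝ) = ∏ p ∈ q.primeFactors, ((p : ℝ) - 1) := by
    rw [h1, Nat.cast_prod]
    refine prod_congr rfl fun p hp => ?_
    rw [Nat.cast_sub (Nat.prime_of_mem_primeFactors hp).one_le, Nat.cast_one]
  have h3 : (q : ℝ) = ∏ p ∈ q.primeFactors, (p : ℝ) := by
    conv_lhs => rw [← Nat.prod_primeFactors_of_squarefree hq]
    rw [Nat.cast_prod]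
  rw [prod_div_distrib, ← h3, prod_pow, ← h2]

theorem B4 (h0 : B0_stmt) (h1 : B1_stmt) (h2 : B2_stmt) (h3 : B3_stmt) : B4_stmt := by
  classical
  intro ε hε C₁ hC₁
  set κ := Real.log (1 + ε / 2) with hκ
  have hκ0 : 0 < κ := Real.log_pos (by linarith)
  have hexpκ : Real.exp κ = 1 + ε / 2 := Real.exp_log (by linarith)
  obtain ⟨L, hL⟩ := exists_nat_ge (8 / κ)
  have hL0 : 0 < L := by
    have : (0 : ℝ) < L := lt_of_lt_of_le (by positivity) hL
    exact_mod_cast this
  have hLκ : 8 ≤ L * κ := by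
    rw [div_le_iff₀ hκ0] at hL
    exact hL
  -- choice of w
  have ht : Tendsto (fun x : ℕ => 12 * Real.exp (2 * L) * (x : ℝ) ^ (-(1 / 6) : ℝ)) atTop
      (nhds 0) := by
    have h := (tendsto_rpow_neg_atTop (y := 1 / 6) (by norm_num)).comp
      tendsto_natCast_atTop_atTop
    have h' := h.const_mul (12 * Real.exp (2 * L))
    rw [mul_zero] at h'
    exact h'
  obtain ⟨w, hw50, hwC, hwκ⟩ : ∃ w : ℕ, 50 ≤ w ∧ Real.log C₁ ≤ w ∧
      12 * Real.exp (2 * L) * (w : ℝ) ^ (-(1 / 6) : ℝ) ≤ κ / 2 := by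
    have e1 := ht.eventually (gt_mem_nhds (show (0 : ℝ) < κ / 2 by linarith))
    obtain ⟨n₁, hn₁⟩ := exists_nat_ge (Real.log C₁)
    obtain ⟨w, hw⟩ := (e1.and ((eventually_ge_atTop 50).and (eventually_ge_atTop n₁))).exists
    refine ⟨w, hw.2.1, ?_, hw.1.le⟩
    have : (n₁ : ℝ) ≤ w := by exact_mod_cast hw.2.2
    linarith
  have hw0 : (0 : ℝ) < w := by
    have : 0 < w := by omega
    exact_mod_cast this
  set m := primorial w with hm
  have hmpos : 0 < m := primorial_pos w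
  set M := C₁ * (m : ℝ) ^ 2 with hM
  have hMpos : 0 < M := by
    have : (0 : ℝ) < m := by exact_mod_cast hmpos
    have : (0 : ℝ) < C₁ := by linarith
    positivity
  have hMle : M ≤ Real.exp (4 * w) := by
    have e1 : C₁ ≤ Real.exp w := by
      calc C₁ = Real.exp (Real.log C₁) := (Real.exp_log (by linarith)).symm
        _ ≤ Real.exp w := Real.exp_le_exp.2 hwC
    have e2 : (m : ℝ) ≤ 4 ^ w := by exact_mod_cast primorial_le_four_pow w
    have e3 : ((4 : ℝ) ^ w) = Real.exp (w * Real.log 4) := by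
      rw [Real.exp_nat_mul, Real.exp_log (by norm_num)]
    have e4 : (m : ℝ) ^ 2 ≤ Real.exp (w * Real.log 4) ^ 2 := by
      rw [← e3]
      exact pow_le_pow_left₀ (by positivity) e2 2
    rw [← Real.exp_nat_mul] at e4
    have e5 : Real.log 4 ≤ 1.4 := by
      have : Real.log 4 = 2 * Real.log 2 := by
        rw [show (4 : ℝ) = 2 ^ 2 by norm_num, Real.log_pow]
        norm_num
      have := Real.log_two_lt_d9
      linarith
    calc M ≤ Real.exp w * Real.exp ((2 : ℕ) * (w * Real.log 4)) := by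
          rw [hM]
          exact mul_le_mul e1 e4 (by positivity) (Real.exp_pos _).le
      _ = Real.exp (w + (2 : ℕ) * (w * Real.log 4)) := (Real.exp_add _ _).symm
      _ ≤ Real.exp (4 * w) := by
          refine Real.exp_le_exp.2 ?_
          push_cast
          nlinarith
  -- choice of z
  obtain ⟨z, hzw, hz⟩ : ∃ z : ℕ, w ≤ z ∧ 8 * M * (z : ℝ) ^ (-(1 / 8) : ℝ) ≤ ε / 2 := by
    have h := (tendsto_rpow_neg_atTop (y := 1 / 8) (by norm_num)).comp
      tendsto_natCast_atTop_atTop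
    have h' := h.const_mul (8 * M)
    rw [mul_zero] at h'
    have e1 := h'.eventually (gt_mem_nhds (show (0 : ℝ) < ε / 2 by linarith))
    obtain ⟨z, hz⟩ := (e1.and (eventually_ge_atTop w)).exists
    exact ⟨z, hz.2, hz.1.le⟩
  refine ⟨w, hw50, primorial z, fun Q hQ T hT => ?_⟩
  set v : ℕ → ℝ := fun p => (p : ℝ) / ((p : ℝ) - 1) ^ 2 with hv
  set u : ℕ → ℝ := fun p => (p : ℝ) ^ (-(1 / 6) : ℝ) with hu
  set P : Finset ℕ := {p ∈ Ioc w z | p.Prime} with hP
  have hPw : ∀ p ∈ P, w < p := fun p hp => (mem_Ioc.1 (mem_filter.1 hp).1).1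
  have hPz : ∀ p ∈ P, p ≤ z := fun p hp => (mem_Ioc.1 (mem_filter.1 hp).1).2
  have hPp : ∀ p ∈ P, p.Prime := fun p hp => (mem_filter.1 hp).2
  -- hypothesis of B1
  have hyp : ∀ D ⊆ P, (pc T (∏ p ∈ D, p) : ℝ) ≤ M * (∏ p ∈ D, u p) * (#T : ℝ) ^ 2 := by
    intro D hD
    have e1 : 0 < ∏ p ∈ D, p := prod_pos fun p hp => (hPp p (hD hp)).pos
    have e2 : ∏ p ∈ D, p ≤ Q := by
      refine le_trans ?_ hQ
      unfold primorial
      refine prod_le_prod_of_subset_of_one_le' ?_ ?_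
      · intro p hp
        exact mem_filter.2 ⟨mem_range.2 (Nat.lt_succ_of_le (hPz p (hD hp))), hPp p (hD hp)⟩
      · intro p hp _
        exact (mem_filter.1 hp).2.one_le
    have e3 : Nat.Coprime (∏ p ∈ D, p) m := by
      refine Nat.Coprime.prod_left fun p hp => ?_
      rw [hm]
      unfold primorial
      refine Nat.Coprime.prod_right fun r hr => ?_
      rw [mem_filter, mem_range] at hr
      refine (Nat.coprime_primes (hPp p (hD hp)) hr.2).2 ?_
      have := hPw p (hD hp)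
      omega
    have e4 := hT _ e1 e2 e3
    have e5 : ((∏ p ∈ D, p : ℕ) : ℝ) ^ (-(1 / 6) : ℝ) = ∏ p ∈ D, u p := by
      rw [Nat.cast_prod, hu]
      exact (Real.finset_prod_rpow _ _ (fun p _ => by positivity) _).symm
    rw [e5] at e4
    exact e4
  have hv0 : ∀ p ∈ P, 0 ≤ v p := fun p _ => by
    rw [hv]; positivity
  have hlam : 0 < L * w := Nat.mul_pos hL0 (by omega)
  have hB1 := h1 P T v u M (L * w) hlam hPp hv0 hyp
  have hB2 := h2 L w P (by omega) hPw
  set g : Finset ℕ → ℝ := fun D => (∏ p ∈ D, v p) * (pc T (∏ p ∈ D, p) : ℝ) with hg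
  have hg0 : ∀ D ⊆ P, 0 ≤ g D := fun D hD =>
    mul_nonneg (prod_nonneg fun p hp => hv0 p (hD hp)) (by positivity)
  have hsumg : ∑ D ∈ P.powerset, g D ≤ (1 + ε / 2) * (#T : ℝ) ^ 2 := by
    have e1 : M * ∏ p ∈ P, (1 + ((1 + v p) ^ (L * w) - 1) * u p) ≤ Real.exp κ ^ (L * w) := by
      calc M * ∏ p ∈ P, (1 + ((1 + v p) ^ (L * w) - 1) * u p)
          ≤ Real.exp (4 * w) * Real.exp (12 * L * Real.exp (2 * L) * w *
              (w : ℝ) ^ (-(1 / 6) : ℝ)) := by
            refine mul_le_mul hMle hB2 ?_ (Real.exp_pos _).le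
            refine prod_nonneg fun p hp => ?_
            have a1 : 1 ≤ (1 + v p) ^ (L * w) := one_le_pow₀ (by linarith [hv0 p hp])
            have a2 : 0 ≤ u p := by rw [hu]; positivity
            have := mul_nonneg (sub_nonneg.2 a1) a2
            linarith
        _ = Real.exp (4 * w + 12 * L * Real.exp (2 * L) * w * (w : ℝ) ^ (-(1 / 6) : ℝ)) :=
            (Real.exp_add _ _).symm
        _ ≤ Real.exp (((L * w : ℕ) : ℝ) * κ) := by
            refine Real.exp_le_exp.2 ?_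
            push_cast
            have b1 : (4 : ℝ) * w ≤ L * w * (κ / 2) := by nlinarith
            have b2 : 12 * L * Real.exp (2 * L) * w * (w : ℝ) ^ (-(1 / 6) : ℝ)
                ≤ L * w * (κ / 2) := by
              have : 12 * L * Real.exp (2 * L) * w * (w : ℝ) ^ (-(1 / 6) : ℝ) =
                  (L * w) * (12 * Real.exp (2 * L) * (w : ℝ) ^ (-(1 / 6) : ℝ)) := by ring
              rw [this]
              exact mul_le_mul_of_nonneg_left hwκ (by positivity)
            linarith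
        _ = Real.exp κ ^ (L * w) := Real.exp_nat_mul _ _
    have e2 : (∑ D ∈ P.powerset, g D) ^ (L * w) ≤ (Real.exp κ * (#T : ℝ) ^ 2) ^ (L * w) := by
      refine hB1.trans ?_
      rw [mul_pow]
      exact mul_le_mul_of_nonneg_right e1 (by positivity)
    have e3 := le_of_pow_le_pow_left₀ hlam.ne' (by positivity) e2
    rwa [hexpκ] at e3
  -- splitting
  have hsplit := sum_filter_add_sum_filter_not (sq m Q) (fun q => ∀ p ∈ q.primeFactors, p ≤ z)
    (fun q => (q : ℝ) / (Nat.totient q : ℝ) ^ 2 * (pc T q : ℝ))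
  rw [← hsplit]
  have hsq : ∀ q ∈ sq m Q, 1 < q ∧ q ≤ Q ∧ Squarefree q ∧ Nat.Coprime q m := by
    intro q hq
    rw [sq, mem_filter, mem_Ioc] at hq
    exact ⟨hq.1.1, hq.1.2, hq.2.1, hq.2.2⟩
  have hA : ∑ q ∈ sq m Q with (∀ p ∈ q.primeFactors, p ≤ z),
      (q : ℝ) / (Nat.totient q : ℝ) ^ 2 * (pc T q : ℝ) ≤ ε / 2 * (#T : ℝ) ^ 2 := by
    have e1 : ∑ q ∈ sq m Q with (∀ p ∈ q.primeFactors, p ≤ z),
        (q : ℝ) / (Nat.totient q : ℝ) ^ 2 * (pc T q : ℝ) ≤ ∑ D ∈ P.powerset.erase ∅, g D := by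
      have hinj : Set.InjOn Nat.primeFactors
          ({q ∈ sq m Q | ∀ p ∈ q.primeFactors, p ≤ z} : Finset ℕ) := by
        intro x hx y hy hxy
        rw [mem_coe, mem_filter] at hx hy
        have a1 := Nat.prod_primeFactors_of_squarefree (hsq x hx.1).2.2.1
        have a2 := Nat.prod_primeFactors_of_squarefree (hsq y hy.1).2.2.1
        rw [← a1, ← a2, hxy]
      have e2 : ∑ q ∈ sq m Q with (∀ p ∈ q.primeFactors, p ≤ z),
          (q : ℝ) / (Nat.totient q : ℝ) ^ 2 * (pc T q : ℝ) =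
          ∑ D ∈ ({q ∈ sq m Q | ∀ p ∈ q.primeFactors, p ≤ z} : Finset ℕ).image Nat.primeFactors,
            g D := by
        rw [sum_image hinj]
        refine sum_congr rfl fun q hq => ?_
        rw [mem_filter] at hq
        have hs := (hsq q hq.1).2.2.1
        rw [hg]
        simp only
        rw [Nat.prod_primeFactors_of_squarefree hs, ratio_eq hs]
      rw [e2]
      refine sum_le_sum_of_subset_of_nonneg ?_ ?_
      · intro D hD
        rw [mem_image] at hD
        obtain ⟨q, hq, rfl⟩ := hD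
        rw [mem_filter] at hq
        obtain ⟨hq1, hqQ, hs, hcop⟩ := hsq q hq.1
        rw [mem_erase, mem_powerset]
        refine ⟨?_, ?_⟩
        · intro h
          rw [Nat.primeFactors_eq_empty] at h
          omega
        · intro p hp
          have hpp := Nat.prime_of_mem_primeFactors hp
          rw [hP, mem_filter, mem_Ioc]
          exact ⟨⟨not_dvd_of hcop hpp (Nat.dvd_of_mem_primeFactors hp), hq.2 p hp⟩, hpp⟩
      · intro D hD _
        exact hg0 D (mem_powerset.1 (mem_of_mem_erase hD))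
    have e2 : ∑ D ∈ P.powerset.erase ∅, g D = ∑ D ∈ P.powerset, g D - g ∅ := by
      rw [← add_sum_erase P.powerset g (empty_mem_powerset P)]
      ring
    have e3 : g ∅ = (#T : ℝ) ^ 2 := by
      rw [hg]
      simp only [prod_empty, one_mul]
      exact pc_one T
    rw [e2, e3] at e1
    linarith
  have hB : ∑ q ∈ sq m Q with ¬ (∀ p ∈ q.primeFactors, p ≤ z),
      (q : ℝ) / (Nat.totient q : ℝ) ^ 2 * (pc T q : ℝ) ≤ ε / 2 * (#T : ℝ) ^ 2 := by
    have hz1 : 1 ≤ z := by omega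
    have hB0 := h0 (1 / 8) (by norm_num) z Q hz1
    have e1 : ∑ q ∈ sq m Q with ¬ (∀ p ∈ q.primeFactors, p ≤ z),
        (q : ℝ) / (Nat.totient q : ℝ) ^ 2 * (pc T q : ℝ) ≤
        ∑ q ∈ Ioc z Q, M * (#T : ℝ) ^ 2 * (q : ℝ) ^ (-(1 + 1 / 8) : ℝ) := by
      have e2 : ∀ q ∈ (sq m Q).filter (fun q => ¬ (∀ p ∈ q.primeFactors, p ≤ z)),
          (q : ℝ) / (Nat.totient q : ℝ) ^ 2 * (pc T q : ℝ) ≤
            M * (#T : ℝ) ^ 2 * (q : ℝ) ^ (-(1 + 1 / 8) : ℝ) := by
        intro q hq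
        rw [mem_filter] at hq
        obtain ⟨hq1, hqQ, hs, hcop⟩ := hsq q hq.1
        have a1 := h3 q hs (fun p hp hpq => by
          have := not_dvd_of hcop hp hpq
          omega)
        have a2 := hT q (by omega) hqQ hcop
        have hq0 : (0 : ℝ) < q := by
          have : 0 < q := by omega
          exact_mod_cast this
        calc (q : ℝ) / (Nat.totient q : ℝ) ^ 2 * (pc T q : ℝ)
            ≤ (q : ℝ) ^ (-(23 / 24) : ℝ) *
              (C₁ * (m : ℝ) ^ 2 * (q : ℝ) ^ (-(1 / 6) : ℝ) * (#T : ℝ) ^ 2) :=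
              mul_le_mul a1 a2 (by positivity) (by positivity)
          _ = M * (#T : ℝ) ^ 2 * ((q : ℝ) ^ (-(23 / 24) : ℝ) * (q : ℝ) ^ (-(1 / 6) : ℝ)) := by
              rw [hM]; ring
          _ = M * (#T : ℝ) ^ 2 * (q : ℝ) ^ (-(1 + 1 / 8) : ℝ) := by
              rw [← Real.rpow_add hq0]
              norm_num
      refine (sum_le_sum e2).trans ?_
      refine sum_le_sum_of_subset_of_nonneg ?_ (fun _ _ _ => by positivity)
      intro q hq
      rw [mem_filter] at hq
      obtain ⟨hq1, hqQ, hs, hcop⟩ := hsq q hq.1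
      obtain ⟨p, hp, hpz⟩ : ∃ p ∈ q.primeFactors, z < p := by
        have := hq.2
        push_neg at this
        exact this
      have := Nat.le_of_mem_primeFactors hp
      rw [mem_Ioc]
      omega
    rw [← mul_sum] at e1
    have hMT : 0 ≤ M * (#T : ℝ) ^ 2 := by positivity
    have e3 := mul_le_mul_of_nonneg_left hB0 hMT
    have e4 : M * (#T : ℝ) ^ 2 * (1 / (1 / 8) * (z : ℝ) ^ (-(1 / 8) : ℝ)) =
        (8 * M * (z : ℝ) ^ (-(1 / 8) : ℝ)) * (#T : ℝ) ^ 2 := by ring
    rw [e4] at e3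
    have e5 := mul_le_mul_of_nonneg_right hz (show (0 : ℝ) ≤ (#T : ℝ) ^ 2 by positivity)
    linarith
  have := add_le_add hA hB
  linarith

end Pool.Agent.helper29.PQ
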