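import Pool.Agent.helper29.PQ.Spec

namespace Pool.Agent.helper29.PQ

open Finset

namespace D2aux

theorem pc_le (q : ℕ) : Nat.primeCounting q ≤ q := by
  have h3 : Nat.primeCounting q = (Nat.count Nat.Prime (q + 1)) := rfl
  rw [h3, Nat.count_eq_card_filter_range]
  calc #((range (q + 1)).filter Nat.Prime) ≤ #(Ioc 0 q) := by
        refine card_le_card fun x hx => ?_
        rw [mem_filter, mem_range] at hx
        rw [mem_Ioc]
        exact ⟨hx.2.pos, by omega⟩
    _ = q := by simp

theorem aq_add (q : ℕ) : aq q + Nat.primeCounting q = q := by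
  have := pc_le q
  unfold aq
  omega

theorem pc_succ_le (n k : ℕ) : Nat.primeCounting (n + k) ≤ Nat.primeCounting n + k := by
  induction k with
  | zero => simp
  | succ k ih =>
    have h : Nat.primeCounting (n + (k + 1)) ≤ Nat.primeCounting (n + k) + 1 := by
      have e1 : Nat.primeCounting (n + (k + 1)) = Nat.count Nat.Prime (n + k + 1 + 1) := rfl
      have e2 : Nat.primeCounting (n + k) = Nat.count Nat.Prime (n + k + 1) := rfl
      rw [e1, e2, Nat.count_succ]
      split_ifs <;> omega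
    omega

theorem aq_lt {q q' : ℕ} (hq : q.Prime) (hq2 : q ≠ 2) (hlt : q < q') (hq' : q'.Prime) :
    aq q < aq q' := by
  have h1 := aq_add q
  have h2 := aq_add q'
  have hodd : Odd q := hq.odd_of_ne_two hq2
  have hq1 : ¬ (q + 1).Prime := by
    intro h
    have h3 : Even (q + 1) := hodd.add_one
    have h4 := (h.even_iff).1 h3
    have := hq.two_le
    omega
  have hne : q' ≠ q + 1 := fun h => hq1 (h ▸ hq')
  have e1 : Nat.primeCounting (q + 1) = Nat.primeCounting q := by
    have a1 : Nat.primeCounting (q + 1) = Nat.count Nat.Prime (q + 1 + 1) := rfl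
    have a2 : Nat.primeCounting q = Nat.count Nat.Prime (q + 1) := rfl
    rw [a1, a2, Nat.count_succ, if_neg hq1, add_zero]
  have e2 := pc_succ_le (q + 1) (q' - (q + 1))
  have e3 : q + 1 + (q' - (q + 1)) = q' := by omega
  rw [e3, e1] at e2
  omega

end D2aux

open D2aux

theorem D2 : D2_stmt := by
  classical
  intro m b n₀ Y S hm hS
  have hmod : ∀ q ∈ S, aq q % m = (b + n₀) % m := by
    intro q hq
    obtain ⟨-, -, -, h1, h2⟩ := hS q hq
    have h3 := aq_add q
    have h4 : aq q + (Nat.primeCounting q + n₀) ≡ b + n₀ [MOD m] := by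
      have : aq q + (Nat.primeCounting q + n₀) = q + n₀ := by omega
      rw [this]
      refine Nat.ModEq.add_right _ ?_
      rw [← h1]
      exact (Nat.mod_modEq _ _).symm
    have h5 : Nat.primeCounting q + n₀ ≡ 0 [MOD m] := by
      rw [Nat.ModEq, h2, Nat.zero_mod]
    have h6 : aq q + (Nat.primeCounting q + n₀) ≡ aq q + 0 [MOD m] := h5.add_left _
    rw [add_zero] at h6
    exact h6.symm.trans h4
  have hrep : ∀ q ∈ S, aq q = (b + n₀) % m + m * (aq q / m) := by
    intro q hq
    rw [← hmod q hq]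
    exact (Nat.mod_add_div _ _).symm
  have hinj : Set.InjOn (fun q => aq q / m) (S : Set ℕ) := by
    intro x hx y hy hxy
    simp only at hxy
    have h1 : aq x = aq y := by rw [hrep x hx, hrep y hy, hxy]
    obtain ⟨x1, x2, -, -, -⟩ := hS x hx
    obtain ⟨y1, y2, -, -, -⟩ := hS y hy
    rcases lt_trichotomy x y with h | h | h
    · exact absurd h1 (aq_lt x1 x2 h y1).ne
    · exact h
    · exact absurd h1 (aq_lt y1 y2 h x1).ne'
  refine ⟨card_image_of_injOn hinj, hrep, ?_, ?_⟩
  · intro a ha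
    rw [Tm, mem_image] at ha
    obtain ⟨q, hq, rfl⟩ := ha
    have h1 := aq_add q
    obtain ⟨-, -, h2, -, -⟩ := hS q hq
    exact Nat.div_le_div_right (by omega)
  · intro d hd hdm K hK
    have h1 : (pc (Tm m S) d : ℕ) ≤ ∑ q ∈ S, #{q' ∈ S | aq q' % d = aq q % d} := by
      rw [← card_sigma]
      unfold pc
      refine card_le_card_of_surjOn (fun x => (aq x.1 / m, aq x.2 / m)) ?_
      intro y hy
      rw [mem_coe, mem_filter, mem_product] at hy
      obtain ⟨⟨hy1, hy2⟩, hy3⟩ := hy
      rw [Tm, mem_image] at hy1 hy2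
      obtain ⟨q, hq, hq1⟩ := hy1
      obtain ⟨q', hq', hq1'⟩ := hy2
      refine ⟨⟨q, q'⟩, ?_, Prod.ext hq1 hq1'⟩
      rw [mem_coe, mem_sigma, mem_filter]
      refine ⟨hq, hq', ?_⟩
      show aq q' % d = aq q % d
      rw [hrep q hq, hrep q' hq', hq1, hq1']
      exact ((hy3.symm.mul_left m).add_left _)
    have h2 : ∑ q ∈ S, (#{q' ∈ S | aq q' % d = aq q % d} : ℝ) ≤ ∑ _q ∈ S, K :=
      sum_le_sum fun q _ => hK (aq q)
    rw [sum_const, nsmul_eq_mul] at h2
    have h3 : (pc (Tm m S) d : ℝ) ≤ ∑ q ∈ S, (#{q' ∈ S | aq q' % d = aq q % d} : ℝ) := by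
      exact_mod_cast h1
    linarith

end Pool.Agent.helper29.PQ
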