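import Pool.Agent.helper29.PQ.Spec

namespace Pool.Agent.helper29.PQ

open Finset Pool.Agent.helper74.TG

private theorem pc_le (q : ℕ) : Nat.primeCounting q ≤ q := by
  rcases Nat.eq_zero_or_pos q with h | h
  · subst h; simp
  · have h3 : Nat.primeCounting q = (Nat.count Nat.Prime (q + 1)) := rfl
    rw [h3, Nat.count_eq_card_filter_range]
    calc #((range (q + 1)).filter Nat.Prime) ≤ #(Ioc 0 q) := by
          refine card_le_card fun x hx => ?_
          rw [mem_filter, mem_range] at hx
          rw [mem_Ioc]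
          exact ⟨hx.2.pos, by omega⟩
      _ = q := by simp

private theorem aq_add (q : ℕ) : aq q + Nat.primeCounting q = q := by
  have := pc_le q
  unfold aq
  omega

theorem D3 (h2 : D2_stmt) : D3_stmt := by
  classical
  intro m b n₀ Y X₁ X S hm hb hS hX₁
  obtain ⟨hcard, hrep, hle, -⟩ := h2 m b n₀ Y S hm hS
  have hinj : Set.InjOn (fun q => aq q / m) (S : Set ℕ) := by
    rw [← card_image_iff]
    exact hcard
  set ρ := (b + n₀) % m with hρ
  have hρm : ρ < m := Nat.mod_lt _ hm
  set c := m - b with hc
  have hcm : c ≤ m := Nat.sub_le _ _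
  have hc0 : 0 < c := by omega
  -- the equation for N
  have key : ∀ n, X₁ < n → n % m = n₀ % m → n = ρ + c + m * ((n - (ρ + c)) / m) := by
    intro n hn hmod
    have h1 : ρ + c ≤ n := by omega
    have h3 : ρ + c ≡ n [MOD m] := by
      have h4 : ρ ≡ b + n₀ [MOD m] := Nat.mod_modEq _ _
      have h5 : ρ + c ≡ b + n₀ + c [MOD m] := h4.add_right c
      have h6 : b + n₀ + c = n₀ + m := by omega
      rw [h6] at h5
      have h7 : n₀ + m ≡ n₀ [MOD m] := by simp [Nat.ModEq]
      exact (h5.trans h7).trans hmod.symm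
    have h4 := (Nat.modEq_iff_dvd' h1).1 h3
    rw [Nat.mul_div_cancel' h4]
    omega
  refine card_le_card_of_injOn (fun n => (n - (ρ + c)) / m) ?_ ?_
  · intro n hn
    rw [mem_coe, mem_filter, mem_Ioc] at hn
    obtain ⟨⟨hn1, hn2⟩, hmod, hlt⟩ := hn
    have hk := key n hn1 hmod
    set N := (n - (ρ + c)) / m with hN
    rw [mem_coe, mem_filter, mem_Ioc]
    have hNl : Y / m < N := by
      rw [Nat.div_lt_iff_lt_mul hm, mul_comm]
      omega
    have hNu : N ≤ X / m := by
      rw [Nat.le_div_iff_mul_le hm, mul_comm]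
      omega
    refine ⟨⟨hNl, hNu⟩, ?_⟩
    refine lt_of_le_of_lt ?_ hlt
    rw [Tm, sum_image (fun x hx y hy h => hinj hx hy h)]
    have hXpos : (0 : ℝ) ≤ Real.log X := Real.log_natCast_nonneg X
    have h5 : ∀ q ∈ S, fw m c (N - aq q / m) ≤ if (n - aq q).Prime then Real.log X else 0 := by
      intro q hq
      obtain ⟨hqp, hq2, hqY, -, -⟩ := hS q hq
      have haqY : aq q ≤ Y := (Nat.sub_le _ _).trans hqY
      have h6 : aq q / m ≤ N := by
        have := Nat.div_le_div_right (c := m) haqY
        omega
      have h7 : m * (N - aq q / m) + c = n - aq q := by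
        have h8 := hrep q hq
        rw [Nat.mul_sub]
        have h9 : m * (aq q / m) ≤ m * N := Nat.mul_le_mul_left _ h6
        omega
      rw [fw, h7]
      split_ifs with hp
      · have h10 : ((m * (N - aq q / m) + c : ℕ) : ℝ) = ((n - aq q : ℕ) : ℝ) := by rw [h7]
        have h11 : Real.log ((n - aq q : ℕ) : ℝ) ≤ Real.log X := by
          apply Real.log_le_log
          · exact_mod_cast hp.pos
          · exact_mod_cast (Nat.sub_le _ _).trans hn2
        have h12 : (Nat.totient m / m : ℝ) ≤ 1 := by
          rw [div_le_one (by exact_mod_cast hm)]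
          exact_mod_cast Nat.totient_le m
        have h13 : (0 : ℝ) ≤ Nat.totient m / m := by positivity
        have h14 : (0 : ℝ) ≤ Real.log ((n - aq q : ℕ) : ℝ) := Real.log_natCast_nonneg _
        calc (Nat.totient m / m : ℝ) * Real.log ((n - aq q : ℕ) : ℝ)
            ≤ 1 * Real.log ((n - aq q : ℕ) : ℝ) := mul_le_mul_of_nonneg_right h12 h14
          _ ≤ Real.log X := by linarith
      · simp
    refine (sum_le_sum h5).trans ?_
    rw [← sum_filter, sum_const, nsmul_eq_mul]
    refine mul_le_mul_of_nonneg_right ?_ hXpos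
    have h6 : #(S.filter fun q => (n - aq q).Prime) ≤ rep n := by
      refine card_le_card_of_injOn (fun q => (n - aq q, q)) ?_ ?_
      · intro q hq
        rw [mem_coe, mem_filter] at hq
        obtain ⟨hq, hp⟩ := hq
        obtain ⟨hqp, hq2, hqY, -, -⟩ := hS q hq
        have haqY : aq q ≤ Y := (Nat.sub_le _ _).trans hqY
        have haa := aq_add q
        rw [mem_coe, mem_filter, mem_product, mem_range, mem_range]
        refine ⟨⟨?_, ?_⟩, hp, ?_, hqp, hq2, ?_⟩
        · exact Nat.lt_succ_of_le (Nat.sub_le _ _)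
        · show q < n + 1
          omega
        · show n - aq q ≠ 2
          omega
        · show n + Nat.primeCounting q = n - aq q + q
          omega
      · intro x hx y hy hxy
        exact (Prod.ext_iff.1 hxy).2
    exact_mod_cast h6
  · intro n hn n' hn' heq
    rw [mem_coe, mem_filter, mem_Ioc] at hn hn'
    have hk := key n hn.1.1 hn.2.1
    have hk' := key n' hn'.1.1 hn'.2.1
    simp only at heq
    rw [hk, hk', heq]

end Pool.Agent.helper29.PQ
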