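import Pool.Agent.helper29.PQ.Spec

namespace Pool.Agent.helper29.PQ

open Finset Filter Pool.Agent.helper74.TG

private theorem ev_log (a : ℝ) (ha : 0 < a) :
    ∀ᶠ X : ℕ in atTop, Real.log X / 2 ≤ Real.log (a * X) ∧ 1 ≤ a * (X : ℝ) ∧ 1 ≤ Real.log X := by
  have h1 : Tendsto (fun X : ℕ => Real.log X) atTop atTop :=
    Real.tendsto_log_atTop.comp tendsto_natCast_atTop_atTop
  have h2 : Tendsto (fun X : ℕ => a * (X : ℝ)) atTop atTop :=
    tendsto_natCast_atTop_atTop.const_mul_atTop ha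
  filter_upwards [h1.eventually_ge_atTop (-2 * Real.log a), h1.eventually_ge_atTop 1,
    h2.eventually_ge_atTop 1, eventually_ge_atTop 1] with X e1 e2 e3 e4
  have hX : (0 : ℝ) < X := by exact_mod_cast e4
  refine ⟨?_, e3, e2⟩
  rw [Real.log_mul ha.ne' hX.ne']
  linarith

private theorem ev_cheb : ∀ᶠ Y : ℕ in atTop, (Y : ℝ) / Real.log Y ≤ 2 * Nat.primeCounting Y := by
  have h1 : ∀ᶠ Y : ℕ in atTop, Real.log ((Y : ℝ) + 1) ≤ 0.19 * Y := by
    have h2 : Tendsto (fun Y : ℕ => (Y : ℝ) + 1) atTop atTop :=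
      tendsto_natCast_atTop_atTop.atTop_add tendsto_const_nhds
    have h3 := (Real.isLittleO_log_id_atTop.comp_tendsto h2).bound (show (0 : ℝ) < 0.1 by norm_num)
    filter_upwards [h3, eventually_ge_atTop 2] with Y e1 e2
    have hY : (2 : ℝ) ≤ Y := by exact_mod_cast e2
    simp only [Function.comp, id] at e1
    rw [Real.norm_of_nonneg (Real.log_nonneg (by linarith)), Real.norm_of_nonneg (by linarith)]
      at e1
    linarith
  filter_upwards [h1, eventually_ge_atTop 2] with Y e1 e2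
  have h2 := Chebyshev.pi_ge Y
  have hY : (2 : ℝ) ≤ Y := by exact_mod_cast e2
  have hlog : 0 < Real.log Y := Real.log_pos (by linarith)
  have h3 : (Y : ℝ) / 2 ≤ Y * Real.log 2 - Real.log (Y + 1) := by
    have := Real.log_two_gt_d9
    nlinarith
  have h4 : (Y : ℝ) / 2 / Real.log Y ≤ (Y * Real.log 2 - Real.log (Y + 1)) / Real.log Y :=
    div_le_div_of_nonneg_right h3 hlog.le
  have h5 : (Y : ℝ) / Real.log Y = 2 * ((Y : ℝ) / 2 / Real.log Y) := by ring
  rw [h5]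
  have h6 := h4.trans h2
  linarith

theorem D4 (hA : A4_stmt) (hB : B4_stmt) (hC : C5_stmt) (hD1 : D1_stmt) (hD2 : D2_stmt)
    (hD3 : D3_stmt) : D4_stmt := by
  classical
  intro ε hε hε1
  obtain ⟨CA, hCA, YA, hA⟩ := hA
  set C₁ := max 1 (4 * CA) with hC₁
  obtain ⟨w, hw50, Q₀, hB⟩ := hB (ε / 160) (by positivity) C₁ (le_max_left _ _)
  set m := primorial w with hm
  have hmpos : 0 < m := primorial_pos w
  have hmr : (0 : ℝ) < m := by exact_mod_cast hmpos
  have hm1 : (1 : ℝ) ≤ m := by exact_mod_cast hmpos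
  obtain ⟨YD, hD1⟩ := hD1 w (by omega)
  -- uniform threshold of C5
  have hC' : ∀ c : ℕ, ∃ U₀ : ℕ, Nat.Coprime c m → ∀ U : ℕ, U₀ ≤ U → ∀ (η : ℝ) (N₁ : ℕ)
      (T : Finset ℕ), (∀ a ∈ T, a ≤ N₁) → ε / (128 * m) * U / Real.log U ≤ #T →
      ∑ q ∈ sq m ⌊Real.log U ^ 44⌋₊, (q : ℝ) / (Nat.totient q : ℝ) ^ 2 * (pc T q : ℝ)
        ≤ η * (#T : ℝ) ^ 2 →
      (#{N ∈ Ioc N₁ U | ∑ a ∈ T, fw m c (N - a) < #T / 2} : ℝ) ≤ (40 * η + ε / 4) * U := by
    intro c
    by_cases hc : Nat.Coprime c m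
    · obtain ⟨U₀, hU⟩ := hC m c hmpos hc (ε / (128 * m)) (ε / 4) (by positivity) (by positivity)
      exact ⟨U₀, fun _ => hU⟩
    · exact ⟨0, fun h => absurd h hc⟩
  choose U₀ hC' using hC'
  set U₁ := (range (m + 1)).sup U₀ with hU₁
  -- eventual conditions
  have tY : Tendsto (fun X : ℕ => ⌊ε * X / 8⌋₊) atTop atTop := by
    have h1 : Tendsto (fun X : ℕ => ε / 8 * (X : ℝ)) atTop atTop :=
      tendsto_natCast_atTop_atTop.const_mul_atTop (by positivity)
    have h2 := tendsto_nat_floor_atTop.comp h1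
    refine h2.congr fun X => ?_
    simp only [Function.comp]
    congr 1
    ring
  have tU : Tendsto (fun X : ℕ => X / m) atTop atTop := Nat.tendsto_div_const_atTop hmpos.ne'
  have tlogU : Tendsto (fun X : ℕ => Real.log ((X / m : ℕ) : ℝ)) atTop atTop :=
    Real.tendsto_log_atTop.comp (tendsto_natCast_atTop_atTop.comp tU)
  have tQ : Tendsto (fun X : ℕ => ⌊Real.log ((X / m : ℕ) : ℝ) ^ 44⌋₊) atTop atTop :=
    tendsto_nat_floor_atTop.comp ((tendsto_pow_atTop (by norm_num)).comp tlogU)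
  have tL : Tendsto (fun X : ℕ => Real.log X) atTop atTop :=
    Real.tendsto_log_atTop.comp tendsto_natCast_atTop_atTop
  have tX : Tendsto (fun X : ℕ => (X : ℝ)) atTop atTop := tendsto_natCast_atTop_atTop
  have hev := ((((((((tY.eventually_ge_atTop YA).and (tY.eventually_ge_atTop YD)).and
    (tY.eventually ev_cheb)).and (tU.eventually_ge_atTop U₁)).and
    (tQ.eventually_ge_atTop Q₀)).and (ev_log (ε / 16) (by positivity))).and
    (ev_log (1 / (2 * m)) (by positivity))).and (tL.eventually_ge_atTop (2 ^ 50))).and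
    (tX.eventually_ge_atTop (16 * (3 * m + 4) / ε))
  obtain ⟨X₀, hX₀⟩ := eventually_atTop.1 hev
  refine ⟨m, hmpos, ε / (512 * m ^ 2), by positivity, X₀, fun X hX n₀ => ?_⟩
  obtain ⟨⟨⟨⟨⟨⟨⟨⟨hYA, hYD⟩, hcheb⟩, hUU⟩, hQQ⟩, hl1, hl1', hlog1⟩, hl2, hl2', -⟩, hbig⟩, hXbig⟩ :=
    hX₀ X hX
  set Y := ⌊ε * X / 8⌋₊ with hY
  set U := X / m with hU
  set X₁ := ⌊ε * X / 2⌋₊ with hX₁
  have hXr : 16 * (3 * (m : ℝ) + 4) ≤ ε * X := by
    rw [div_le_iff₀ hε] at hXbig
    linarith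
  have hXpos : (0 : ℝ) < X := by
    by_contra h
    push Not at h
    nlinarith
  have hYle : (Y : ℝ) ≤ ε * X / 8 := Nat.floor_le (by positivity)
  have hYge : ε / 16 * X ≤ Y := by
    have h1 := Nat.lt_floor_add_one (ε * X / 8)
    rw [← hY] at h1
    nlinarith
  have hX₁le : (X₁ : ℝ) ≤ ε * X / 2 := Nat.floor_le (by positivity)
  have hX₁ge : ε * X / 2 < X₁ + 1 := Nat.lt_floor_add_one (ε * X / 2)
  have hYX₁ : Y + 3 * m + 2 ≤ X₁ := by
    have h1 : (Y : ℝ) + 3 * m + 2 ≤ X₁ := by nlinarith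
    exact_mod_cast h1
  have hYpos : (0 : ℝ) < Y := by linarith
  have hYX : (Y : ℝ) ≤ X := by nlinarith
  have hlogX : 0 < Real.log X := by linarith
  have hlogYle : Real.log Y ≤ Real.log X := Real.log_le_log hYpos hYX
  have hlogYge : Real.log X / 2 ≤ Real.log Y :=
    hl1.trans (Real.log_le_log (by linarith) hYge)
  have hlogY : 0 < Real.log Y := by linarith
  -- U
  have hUle : (U : ℝ) ≤ X / m := by
    rw [hU]; exact Nat.cast_div_le
  have hUge : 1 / (2 * m) * (X : ℝ) ≤ U := by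
    have h1 : (X : ℝ) < m * (U + 1) := by
      have := Nat.lt_mul_div_succ X hmpos
      rw [← hU] at this
      exact_mod_cast this
    have h2 : 1 / (2 * m) * (X : ℝ) ≤ 1 / (2 * m) * (m * (U + 1)) :=
      mul_le_mul_of_nonneg_left h1.le (by positivity)
    have h3 : 1 / (2 * m) * (m * ((U : ℝ) + 1)) = (U + 1) / 2 := by
      field_simp
    rw [h3] at h2
    linarith
  have hUpos : (0 : ℝ) < U := by linarith
  have hlogU1 : Real.log X / 2 ≤ Real.log U :=
    hl2.trans (Real.log_le_log (by linarith) hUge)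
  have hlogU : 0 < Real.log U := by linarith
  have hlogU2 : Real.log U ≤ Real.log X := by
    refine Real.log_le_log hUpos (hUle.trans ?_)
    exact div_le_self hXpos.le hm1
  have hQY : Real.log U ^ 44 ≤ Real.log Y ^ 50 := by
    calc Real.log U ^ 44 ≤ Real.log X ^ 44 := pow_le_pow_left₀ hlogU.le hlogU2 _
      _ ≤ (Real.log X / 2) ^ 50 := by
          have h1 : (Real.log X / 2) ^ 50 = Real.log X ^ 44 * (Real.log X ^ 6 / 2 ^ 50) := by ring
          rw [h1]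
          refine le_mul_of_one_le_right (by positivity) ?_
          rw [one_le_div (by positivity)]
          calc (2 : ℝ) ^ 50 ≤ Real.log X ^ 1 := by rw [pow_one]; exact hbig
            _ ≤ Real.log X ^ 6 := pow_le_pow_right₀ hlog1 (by norm_num)
      _ ≤ Real.log Y ^ 50 := pow_le_pow_left₀ (by positivity) hlogYge _
  -- the set S
  obtain ⟨b, S, hbm, hbc, hS, hcard⟩ := hD1 Y hYD n₀
  rw [← hm] at hbm hbc hS hcard
  obtain ⟨hT1, -, hT3, hT4⟩ := hD2 m b n₀ Y S hmpos hS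
  set T := Tm m S with hT
  have hcardr : (Nat.primeCounting Y : ℝ) ≤ 2 * (m : ℝ) ^ 2 * #T := by
    rw [hT1]; exact_mod_cast hcard
  have hYS : (Y : ℝ) / Real.log Y ≤ 4 * (m : ℝ) ^ 2 * #T := by linarith
  -- B4
  have hsum := hB ⌊Real.log U ^ 44⌋₊ hQQ T (by
    intro d hd hdQ hdm
    have h1 : (d : ℝ) ≤ Real.log Y ^ 50 := by
      have h2 : (d : ℝ) ≤ (⌊Real.log U ^ 44⌋₊ : ℝ) := by exact_mod_cast hdQ
      exact h2.trans ((Nat.floor_le (by positivity)).trans hQY)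
    have h3 := hT4 d hd hdm (C₁ * (m : ℝ) ^ 2 * (d : ℝ) ^ (-(1 / 6) : ℝ) * #T) (by
      intro c
      have h4 := hA Y hYA d hd h1 c
      have h5 : #{q ∈ S | aq q % d = c % d} ≤
          #{q ∈ Ioc 0 Y | q.Prime ∧ q ≠ 2 ∧ aq q % d = c % d} := by
        refine card_le_card fun q hq => ?_
        rw [mem_filter] at hq ⊢
        obtain ⟨h6, h7, h8, -, -⟩ := hS q hq.1
        exact ⟨mem_Ioc.2 ⟨h6.pos, h8⟩, h6, h7, hq.2⟩
      have h6 : (#{q ∈ S | aq q % d = c % d} : ℝ) ≤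
          CA * (Y / Real.log Y) * (d : ℝ) ^ (-(1 / 6) : ℝ) := by
        refine le_trans ?_ h4
        exact_mod_cast h5
      have h7 : (0 : ℝ) ≤ (d : ℝ) ^ (-(1 / 6) : ℝ) := by positivity
      calc (#{q ∈ S | aq q % d = c % d} : ℝ)
          ≤ CA * (Y / Real.log Y) * (d : ℝ) ^ (-(1 / 6) : ℝ) := h6
        _ ≤ CA * (4 * (m : ℝ) ^ 2 * #T) * (d : ℝ) ^ (-(1 / 6) : ℝ) :=
            mul_le_mul_of_nonneg_right (mul_le_mul_of_nonneg_left hYS hCA.le) h7
        _ = (4 * CA) * ((m : ℝ) ^ 2 * (d : ℝ) ^ (-(1 / 6) : ℝ) * #T) := by ring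
        _ ≤ C₁ * ((m : ℝ) ^ 2 * (d : ℝ) ^ (-(1 / 6) : ℝ) * #T) :=
            mul_le_mul_of_nonneg_right (le_max_right _ _) (by positivity)
        _ = C₁ * (m : ℝ) ^ 2 * (d : ℝ) ^ (-(1 / 6) : ℝ) * #T := by ring)
    refine h3.trans (le_of_eq ?_)
    rw [← hT1]
    ring)
  -- C5
  have hTge : ε / 16 * X / (4 * (m : ℝ) ^ 2 * Real.log X) ≤ #T := by
    have h1 : ε / 16 * X / Real.log X ≤ 4 * (m : ℝ) ^ 2 * #T := by
      refine le_trans ?_ hYS
      exact div_le_div₀ hYpos.le hYge hlogY hlogYle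
    rw [div_le_iff₀ (by positivity)] at h1 ⊢
    nlinarith
  have hc : Nat.Coprime (m - b) m := by
    rw [Nat.coprime_self_sub_left hbm.le]
    exact hbc
  have hU₀ : U₀ (m - b) ≤ U := by
    refine le_trans ?_ hUU
    exact le_sup (f := U₀) (mem_range.2 (by omega))
  have hfin := hC' (m - b) hc U hU₀ (ε / 160) (Y / m) T hT3 (by
    refine le_trans ?_ hTge
    have h1 : ε / (128 * m) * U / Real.log U ≤ ε / (128 * m) * (X / m) / (Real.log X / 2) :=
      div_le_div₀ (by positivity) (mul_le_mul_of_nonneg_left hUle (by positivity)) (by linarith)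
        hlogU1
    refine h1.trans (le_of_eq ?_)
    field_simp
    ring) hsum
  have hD := hD3 m b n₀ Y X₁ X S hmpos hbm hS hYX₁
  -- conclusion
  have hsub : #{n ∈ Ioc X₁ X | n % m = n₀ % m ∧
        (rep n : ℝ) < ε / (512 * (m : ℝ) ^ 2) * n / Real.log n ^ 2}
      ≤ #{n ∈ Ioc X₁ X | n % m = n₀ % m ∧ (rep n : ℝ) * Real.log X < (#T : ℝ) / 2} := by
    refine card_le_card fun n hn => ?_
    rw [mem_filter, mem_Ioc] at hn ⊢
    obtain ⟨⟨hn1, hn2⟩, hn3, hn4⟩ := hn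
    refine ⟨⟨hn1, hn2⟩, hn3, ?_⟩
    have hn1' : (X₁ : ℝ) + 1 ≤ n := by exact_mod_cast hn1
    have hn2' : (n : ℝ) ≤ X := by exact_mod_cast hn2
    have hnge : ε / 16 * X ≤ n := by nlinarith
    have hlogn : Real.log X / 2 ≤ Real.log n :=
      hl1.trans (Real.log_le_log (by linarith) hnge)
    have h1 : ε / (512 * (m : ℝ) ^ 2) * n / Real.log n ^ 2 ≤
        ε / (512 * (m : ℝ) ^ 2) * X / (Real.log X / 2) ^ 2 :=
      div_le_div₀ (by positivity) (mul_le_mul_of_nonneg_left hn2' (by positivity)) (by positivity)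
        (pow_le_pow_left₀ (by positivity) hlogn 2)
    have h2 : (rep n : ℝ) * Real.log X <
        ε / (512 * (m : ℝ) ^ 2) * X / (Real.log X / 2) ^ 2 * Real.log X :=
      mul_lt_mul_of_pos_right (hn4.trans_le h1) hlogX
    refine h2.trans_le ?_
    have h3 : ε / (512 * (m : ℝ) ^ 2) * X / (Real.log X / 2) ^ 2 * Real.log X =
        (ε / 16 * X / (4 * (m : ℝ) ^ 2 * Real.log X)) / 2 := by
      field_simp
      ring
    rw [h3]
    linarith
  have h1 : (#{n ∈ Ioc X₁ X | n % m = n₀ % m ∧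
        (rep n : ℝ) < ε / (512 * (m : ℝ) ^ 2) * n / Real.log n ^ 2} : ℝ) ≤
      (40 * (ε / 160) + ε / 4) * U := by
    refine le_trans ?_ hfin
    exact_mod_cast hsub.trans hD
  refine h1.trans ?_
  have h2 : (40 * (ε / 160) + ε / 4) * (U : ℝ) ≤ (40 * (ε / 160) + ε / 4) * (X / m) :=
    mul_le_mul_of_nonneg_left hUle (by positivity)
  refine h2.trans (le_of_eq ?_)
  field_simp
  ring

end Pool.Agent.helper29.PQ
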