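import Pool.Agent.helper29.PQ.Spec

namespace Pool.Agent.helper29.PQ

open Finset

theorem D5 (h4 : D4_stmt) : D5_stmt := by
  classical
  intro ε hε
  obtain ⟨m, hm, c, hc, X₀, hX⟩ := h4 (min ε 1) (lt_min hε one_pos) (min_le_right _ _)
  refine ⟨c, hc, X₀, fun X hXX => ?_⟩
  set e := min ε 1 with he
  have he0 : 0 < e := lt_min hε one_pos
  have hmr : (0 : ℝ) < m := by exact_mod_cast hm
  have hsub : ({n ∈ Icc 1 X | (rep n : ℝ) < c * n / Real.log n ^ 2} : Finset ℕ) ⊆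
      Ioc 0 ⌊e * X / 2⌋₊ ∪ (range m).biUnion (fun n₀ =>
        {n ∈ Ioc ⌊e * X / 2⌋₊ X | n % m = n₀ % m ∧ (rep n : ℝ) < c * n / Real.log n ^ 2}) := by
    intro n hn
    rw [mem_filter, mem_Icc] at hn
    rw [mem_union, mem_biUnion]
    by_cases h : n ≤ ⌊e * X / 2⌋₊
    · left
      rw [mem_Ioc]
      omega
    · right
      refine ⟨n % m, mem_range.2 (Nat.mod_lt _ hm), ?_⟩
      rw [mem_filter, mem_Ioc, Nat.mod_mod]
      exact ⟨⟨by omega, hn.1.2⟩, rfl, hn.2⟩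
  have h1 : (#{n ∈ Icc 1 X | (rep n : ℝ) < c * n / Real.log n ^ 2} : ℝ) ≤
      (⌊e * X / 2⌋₊ : ℝ) + ∑ n₀ ∈ range m,
        (#{n ∈ Ioc ⌊e * X / 2⌋₊ X | n % m = n₀ % m ∧ (rep n : ℝ) < c * n / Real.log n ^ 2} : ℝ) := by
    have h2 := (card_le_card hsub).trans (card_union_le _ _)
    have h3 := h2.trans (Nat.add_le_add_left card_biUnion_le _)
    rw [Nat.card_Ioc, Nat.sub_zero] at h3
    exact_mod_cast h3
  have h2 : (⌊e * X / 2⌋₊ : ℝ) ≤ e * X / 2 := Nat.floor_le (by positivity)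
  have h3 : ∑ n₀ ∈ range m,
        (#{n ∈ Ioc ⌊e * X / 2⌋₊ X | n % m = n₀ % m ∧ (rep n : ℝ) < c * n / Real.log n ^ 2} : ℝ)
      ≤ ∑ n₀ ∈ range m, e / (2 * m) * X := sum_le_sum fun n₀ _ => hX X hXX n₀
  rw [sum_const, card_range, nsmul_eq_mul] at h3
  have h4 : (m : ℝ) * (e / (2 * m) * X) = e * X / 2 := by
    field_simp
  rw [h4] at h3
  have h5 : e * X ≤ ε * X := mul_le_mul_of_nonneg_right (min_le_left _ _) (by positivity)
  linarith

end Pool.Agent.helper29.PQ
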