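import Pool.Agent.helper29.PQ.B4
import Pool.Agent.helper29.PQ.D3
import Pool.Agent.helper29.PQ.D4
import Pool.Agent.helper29.PQ.D5
import Pool.Agent.helper36.PQ.A1
import Pool.Agent.helper24.PQ.A2
import Pool.Agent.helper66.PQ.A3
import Pool.Agent.helper69.PQ.A4
import Pool.Agent.helper35.PQ.B0
import Pool.Agent.helper55.PQ.B1
import Pool.Agent.helper96.PQ.B2
import Pool.Agent.helper40.PQ.B3
import Pool.Agent.helper2.PQ.C1
import Pool.Agent.helper73.PQ.C2
import Pool.Agent.helper31.PQ.C3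
import Pool.Agent.helper8.PQ.C4
import Pool.Agent.helper9.PQ.C5
import Pool.Agent.helper33.PQ.D1
import Pool.Agent.helper29.PQ.D2

/-!
# MP_56fc12_nt: assembly
-/

namespace Pool.Agent.helper29.PQ

theorem almost_all : D5_stmt := by
  have hA4 : A4_stmt := A4 A1 A2 A3
  have hB4 : B4_stmt := B4 helper35.PQ.B0 helper55.PQ.B1 (B2 helper35.PQ.B0) B3
  have hC4 : C4_stmt := C4 helper73.PQ.C2 C3
  have hC5 : C5_stmt := C5 C1 hC4
  exact D5 (D4 hA4 hB4 hC5 helper33.PQ.D1 D2 (D3 D2))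

end Pool.Agent.helper29.PQ
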