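import Mathlib
import Pool.Agent.helper35.LinPrimes.Arith
import Pool.Agent.helper74.TG.Defs

/-!
# MP_56fc12_nt: almost all `n` are `p + q - π(q)` with odd primes `p, q ≤ n`.  Statements of the rows.

Each row `X` is a theorem `X : X_stmt` (or `X (hY : Y_stmt) : X_stmt` where the docstring says that
it uses `Y`).  File: `Pool/Agent/<seat>/PQ/<X>.lean`, `import Pool.Agent.helper29.PQ.Spec`.
-/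

namespace Pool.Agent.helper29.PQ

open Finset Pool.Agent.helper35.LinPrimes Pool.Agent.helper74.TG

/-- `a(q) = q - π(q)`. -/
noncomputable def aq (q : ℕ) : ℕ := q - Nat.primeCounting q

/-- The number of pairs of elements of `T` congruent mod `d`. -/
def pc (T : Finset ℕ) (d : ℕ) : ℕ := #{x ∈ T ×ˢ T | x.1 ≡ x.2 [MOD d]}

/-- The number of representations `n = p + q - π(q)` with odd primes `p, q ≤ n`. -/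
noncomputable def rep (n : ℕ) : ℕ :=
  #{x ∈ range (n + 1) ×ˢ range (n + 1) | x.1.Prime ∧ x.1 ≠ 2 ∧ x.2.Prime ∧ x.2 ≠ 2 ∧
    n + Nat.primeCounting x.2 = x.1 + x.2}

/-- The squarefree `q ∈ (1, Q]` coprime to `m`. -/
def sq (m Q : ℕ) : Finset ℕ := {q ∈ Ioc 1 Q | Squarefree q ∧ Nat.Coprime q m}

/-- pq:A1.  Pair bound, for all small shifts `g`.  PROOF. `pairU` of
`Pool.Agent.helper35.LinPrimes.SieveU` with `a = b = 1`, `c = g`, `T = Nat.sqrt Y`: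
the `q ≤ T` number at most `T ≤ √Y ≤ Y / (log Y)^2`; the others are in `solQ 1 g T 1 Y`
(`p = q + g > T`), hence at most `C₂ * h g * h 1 * Y / (log T)^2`, `log T ≥ (log Y) / 4`, `h 1 = 1`,
`1 ≤ h g` (`one_le_h`).  The condition `(1 * g + 1)^D₂ ≤ T` holds for large `Y` because
`(2 (log Y)^60)^D₂ = o(√Y)`. -/
def A1_stmt : Prop := ∃ C : ℝ, 0 < C ∧ ∃ Y₀ : ℕ, ∀ Y : ℕ, Y₀ ≤ Y → ∀ g : ℕ, 0 < g →
  (g : ℝ) ≤ Real.log Y ^ 60 →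
    (#{q ∈ Ioc 0 Y | q.Prime ∧ (q + g).Prime} : ℝ) ≤ C * h g * Y / Real.log Y ^ 2

/-- pq:A2.  PROOF. `h_sq_le` of `Pool.Agent.helper35.LinPrimes.Arith`:
`h g ^ 2 ≤ ∑_{T ⊆ primeFactors g} ∏_{l ∈ T} 6 / l`; interchange (`T` runs over the subsets of
`Nat.primesLE H` with `∏ T ∣ g`), `#{g ∈ Ioc 0 H | ∏ T ∣ g} ≤ H / ∏ T`, so the sum is at most
`H ∏_{l ≤ H} (1 + 6 / l^2) ≤ H exp (6 ∑ 1 / l^2) ≤ exp 6 * H` (`sum_inv_sq_primes`).  The proof of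
`sum_h_sq` in that file is nearly the same and can be adapted. -/
def A2_stmt : Prop := ∃ C : ℝ, 0 < C ∧ ∀ H : ℕ, ∑ g ∈ Ioc 0 H, h g ^ 2 ≤ C * H

/-- pq:A3.  Cells.  PROOF. Put `σ q = q / H + π(q) / I` (both summands monotone in `q`),
`S' = {q ∈ S | ∃ q' ∈ S, q < q' ∧ σ q = σ q'}`.  `σ` is injective on `S \ S'` with values in
`range (Y / H + π(Y) / I + 1)`.  For `q ∈ S'` with its `q'`: `q / H = q' / H` and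
`π(q) / I = π(q') / I`, so `g = q' - q < H`, `i = π(q') - π(q) < I`; `i ≥ 1` as `q'` is prime, and
`i < g` because `q + 1` is even, not prime (`π(q+1) = π(q)`, `π(q') ≤ π(q+1) + (q' - q - 1)`);
`aq q' - aq q = g - i` so `d ∣ g - i`.  Hence `S'` is contained in the union over `i ∈ Ioo 0 I`,
`g ∈ Ioo i H`, `d ∣ g - i` of `{q ∈ Ioc 0 Y | q prime, q + g prime}` (`card_biUnion_le`). -/
def A3_stmt : Prop := ∀ (Y H I d c : ℕ) (S : Finset ℕ), 0 < H → 0 < I →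
  (∀ q ∈ S, q.Prime ∧ q ≠ 2 ∧ q ≤ Y ∧ aq q % d = c % d) →
  #S ≤ Y / H + Nat.primeCounting Y / I + 1 +
    ∑ i ∈ Ioo 0 I, ∑ g ∈ Ioo i H with d ∣ g - i, #{q ∈ Ioc 0 Y | q.Prime ∧ (q + g).Prime}

/-- pq:A4.  Dispersion; uses A1, A2, A3:
`theorem A4 (h1 : A1_stmt) (h2 : A2_stmt) (h3 : A3_stmt) : A4_stmt`.
PROOF. `L = log Y`, `S` the set, `s = #S`, `θ = s L / Y`.  `π(Y) ≤ 3 Y / L` for large `Y`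
(`Chebyshev.pi_le_log4_mul_div`), so `θ ≤ 3`.  If `θ < d^(-1/6)` done with `C = 1`; else
`θ ≥ d^(-1/6) ≥ L^(-50/6)`.  `H = ⌈4 L / θ⌉₊ ≤ 5 L / θ ≤ L^10`, `I = ⌈12 / θ⌉₊ ≤ 15 / θ`.
Then `Y / H ≤ Y θ / (4 L) = s / 4`, `π(Y) / I ≤ (3 Y / L) (θ / 12) = s / 4`, so by A3
`s / 2 - 1 ≤ ∑_{0<i<I} ∑_{i<g<H, d ∣ g - i} N(g)`, and `s / 3 ≤ s / 2 - 1` (`s = θ Y / L ≥ 6` for
large `Y`).  By A1 (`g < H ≤ L^10 ≤ L^60`) `N(g) ≤ C₂ h(g) Y / L^2`.  For fixed `i` the `g` are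
`g = i + d k`, `k ≥ 1`, so at most `H / d` of them (number of multiples of `d` in `(0, H)`), and by
Cauchy-Schwarz and A2 `∑_g h(g) ≤ √(H / d) √(C H) = H √C d^(-1/2)`.  So
`θ Y / (3 L) ≤ (15 / θ) C₂ (Y / L^2) (5 L / θ) √C d^(-1/2)`, i.e. `θ^3 ≤ 225 C₂ √C d^(-1/2)`. -/
def A4_stmt : Prop := ∃ C : ℝ, 0 < C ∧ ∃ Y₀ : ℕ, ∀ Y : ℕ, Y₀ ≤ Y → ∀ d : ℕ, 0 < d →
  (d : ℝ) ≤ Real.log Y ^ 50 → ∀ c : ℕ,
    (#{q ∈ Ioc 0 Y | q.Prime ∧ q ≠ 2 ∧ aq q % d = c % d} : ℝ)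
      ≤ C * (Y / Real.log Y) * (d : ℝ) ^ (-(1 / 6) : ℝ)

/-- pq:B0.  Tail of `∑ n^(-1-s)`.  PROOF. Induction on `Z ≥ w`: for `n ≥ 2`,
`n^(-(1+s)) ≤ (1/s) ((n-1)^(-s) - n^(-s))`, since
`(n-1)^(-s) = n^(-s) exp (s log (n/(n-1))) ≥ n^(-s) (1 + s / n)` (`log (n/(n-1)) ≥ 1/n`). -/
def B0_stmt : Prop := ∀ s : ℝ, 0 < s → ∀ w Z : ℕ, 1 ≤ w →
  ∑ n ∈ Ioc w Z, (n : ℝ) ^ (-(1 + s)) ≤ (1 / s) * (w : ℝ) ^ (-s)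

/-- pq:B1.  Jensen.  PROOF. For `x ∈ T × T` and `p ∈ P` let `X_p(x) = 1` if `x.1 ≡ x.2 mod p`, else
`0`.  `x.1 ≡ x.2 mod ∏_{p ∈ D} p` iff this holds for all `p ∈ D` (distinct primes), so
`∑_{D ⊆ P} (∏_D v) pc T (∏ D) = ∑_x f(x)`, `f(x) = ∏_{p ∈ P} (1 + v_p X_p(x)) ≥ 0`
(`Finset.prod_one_add` or `Finset.prod_add_one`).  `(∑_x f)^lam ≤ (#T^2)^(lam-1) ∑_x f^lam`
(`pow_sum_div_card_le_sum_pow` or `inner_le_nnorm_mul_nnorm`-type), and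
`f^lam = ∏ (1 + ((1+v_p)^lam - 1) X_p)`, whose sum over `x` is
`∑_D ∏_D ((1+v_p)^lam - 1) pc T (∏ D) ≤ M #T^2 ∏_P (1 + ((1+v_p)^lam - 1) u_p)`. -/
def B1_stmt : Prop := ∀ (P T : Finset ℕ) (v u : ℕ → ℝ) (M : ℝ) (lam : ℕ), 0 < lam →
  (∀ p ∈ P, p.Prime) → (∀ p ∈ P, 0 ≤ v p) →
  (∀ D ⊆ P, (pc T (∏ p ∈ D, p) : ℝ) ≤ M * (∏ p ∈ D, u p) * (#T : ℝ) ^ 2) →
  (∑ D ∈ P.powerset, (∏ p ∈ D, v p) * (pc T (∏ p ∈ D, p) : ℝ)) ^ lam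
    ≤ M * (∏ p ∈ P, (1 + ((1 + v p) ^ lam - 1) * u p)) * ((#T : ℝ) ^ 2) ^ lam

/-- pq:B2.  The Euler product; uses B0: `theorem B2 (h0 : B0_stmt) : B2_stmt`.
PROOF. `v = p/(p-1)^2 ≤ 2/p` for `p ≥ 5`; `(1+v)^n - 1 ≤ exp (v n) - 1 ≤ v n exp (v n)` with
`n = L * w` and `v n ≤ 2 L w / p ≤ 2 L`; so each factor is at most
`exp (2 L w exp(2 L) p^(-7/6))`, and `∑_{p ∈ P} p^(-7/6) ≤ 6 w^(-1/6)` by B0 with `s = 1/6`. -/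
def B2_stmt : Prop := ∀ (L w : ℕ) (P : Finset ℕ), 5 ≤ w → (∀ p ∈ P, w < p) →
  ∏ p ∈ P, (1 + ((1 + (p : ℝ) / ((p : ℝ) - 1) ^ 2) ^ (L * w) - 1) * (p : ℝ) ^ (-(1 / 6) : ℝ))
    ≤ Real.exp (12 * L * Real.exp (2 * L) * w * (w : ℝ) ^ (-(1 / 6) : ℝ))

/-- pq:B3.  PROOF. `q/φ(q)^2 = ∏_{p ∣ q} p/(p-1)^2` for squarefree `q`, and
`p/(p-1)^2 ≤ p^(-23/24)`, i.e. `p^(47/48) ≤ p - 1`, i.e. `-log (1 - 1/p) ≤ (log p)/48`: the left side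
is `≤ 1/(p-1) ≤ 1/49` and `log p ≥ 1`. -/
def B3_stmt : Prop := ∀ q : ℕ, Squarefree q → (∀ p : ℕ, p.Prime → p ∣ q → 50 ≤ p) →
  (q : ℝ) / (Nat.totient q : ℝ) ^ 2 ≤ (q : ℝ) ^ (-(23 / 24) : ℝ)

/-- pq:B4.  Entropy against Jensen; uses B0, B1, B2, B3:
`theorem B4 (h0 : B0_stmt) (h1 : B1_stmt) (h2 : B2_stmt) (h3 : B3_stmt) : B4_stmt`.
PROOF. `κ = log (1 + ε/2)`.  Choose `L : ℕ`, `L ≥ 8/κ`, `L ≥ 1`, then `w ≥ 50`, `w ≥ log C₁`, with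
`12 exp(2L) w^(-1/6) ≤ κ/2`; `m = primorial w ≤ 4^w`, `M = C₁ m^2`, so `log M ≤ w + 2 w log 4 ≤ 4 w`
and `(log M)/(L w) ≤ 4/L ≤ κ/2`.  Choose `z ≥ w` with `8 M z^(-1/8) ≤ ε/2`; `Q₀ = primorial z`.
Let `P` be the primes in `(w, z]`.  (i) The `q ∈ sq m Q` whose prime factors are all `≤ z` are
`∏ D` with `∅ ≠ D ⊆ P` (`D = q.primeFactors`), and `q/φ(q)^2 = ∏_D v_p`, `v_p = p/(p-1)^2`; so they
contribute at most `∑_{D ⊆ P} ∏_D v_p pc T (∏ D) - #T^2`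
(the term `D = ∅` is `pc T 1 = #T^2`).  By B1 with
`u_p = p^(-1/6)`, `lam = L * w` (`∏ D ≤ primorial z ≤ Q`, coprime to `m`, so the hypothesis applies)
and B2, `(∑_D)^(L w) ≤ M exp(12 L exp(2L) w w^(-1/6)) (#T^2)^(L w) ≤ (exp κ #T^2)^(L w)`, so the
contribution is `≤ (exp κ - 1) #T^2 = (ε/2) #T^2`.
(ii) The others are `> z` and contribute, by B3 (prime factors `> w ≥ 50`) and the hypothesis, at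
most `∑_{q > z} q^(-23/24) M q^(-1/6) #T^2 ≤ 8 M z^(-1/8) #T^2 ≤ (ε/2) #T^2` (B0 with `s = 1/8`). -/
def B4_stmt : Prop := ∀ ε : ℝ, 0 < ε → ∀ C₁ : ℝ, 1 ≤ C₁ → ∃ w : ℕ, 50 ≤ w ∧ ∃ Q₀ : ℕ, ∀ Q : ℕ,
  Q₀ ≤ Q → ∀ T : Finset ℕ,
  (∀ d : ℕ, 0 < d → d ≤ Q → Nat.Coprime d (primorial w) →
    (pc T d : ℝ) ≤ C₁ * (primorial w : ℝ) ^ 2 * (d : ℝ) ^ (-(1 / 6) : ℝ) * (#T : ℝ) ^ 2) →
  ∑ q ∈ sq (primorial w) Q, (q : ℝ) / (Nat.totient q : ℝ) ^ 2 * (pc T q : ℝ) ≤ ε * (#T : ℝ) ^ 2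

/-- pq:C1.  Parseval.  PROOF. Trivial for `U ≤ N₁`.  Otherwise let `P = 2 * U + 1`,
`K = Ioc 0 (2 * U)`, `G k = (∑_{x ∈ Ioc 0 U} F x ee (x k/P)) (∑_{a ∈ T} ee (a k/P))
= ∑_{z ∈ K} b z ee (z k/P)`, `b z = ∑_{x ∈ Ioc 0 U, a ∈ T, x + a = z} F x`.  By `h61.parseval` of
`Pool.Agent.helper61.TG.WT6` (twice) `P ∑_z ‖b z‖^2 = ∑_{k<P} ‖G k‖^2 ≤ R^2 ∑_{k<P} ‖∑_a ee(a k/P)‖^2
= R^2 P #T`.  For `N ∈ Ioc N₁ U`, `b N = ∑_{a ∈ T} F (N - a)` (`a ≤ N₁ < N`).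
(Elements `a = 0` are allowed: take `K = range (2 * U + 1)` if convenient.) -/
def C1_stmt : Prop := ∀ (U N₁ : ℕ) (F : ℕ → ℂ) (R : ℝ) (T : Finset ℕ), 0 ≤ R →
  (∀ α : ℝ, ‖∑ x ∈ Ioc 0 U, F x * ee (x * α)‖ ≤ R) → (∀ a ∈ T, a ≤ N₁) →
  ∑ N ∈ Ioc N₁ U, ‖∑ a ∈ T, F (N - a)‖ ^ 2 ≤ R ^ 2 * #T

/-- pq:C2.  Dual large sieve at the fractions `a/q`, `q ≤ Q`.  PROOF. `dual` of
`Pool.Agent.helper85.BVP.Dual` with `J = Fa Q`, `α r = r.2 / r.1`, `δ = 1/Q^2` (spacing: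
`farey_spacing` of `Pool.Agent.helper85.MT.MLS`), `M = 0`, `L = U`; `ex = ee`;
`Ioc N₁ U ⊆ range (2 * U)`.  It gives `U ∑_N ≤ (4 U^2 + Q^4) ∑ ‖c r‖^2 ≤ 5 U^2 ∑ ‖c r‖^2`. -/
def C2_stmt : Prop := ∀ (Q U N₁ : ℕ) (c : (Σ _ : ℕ, ℕ) → ℂ), 1 ≤ Q → 2 ≤ U → Q ^ 4 ≤ U ^ 2 →
  ∑ N ∈ Ioc N₁ U, ‖∑ r ∈ Fa Q, c r * ee ((N : ℝ) * ((r.2 : ℝ) / r.1))‖ ^ 2
    ≤ 5 * U * ∑ r ∈ Fa Q, ‖c r‖ ^ 2

/-- pq:C3.  PROOF. `∑_{a<q} ‖∑_t ee(a t/q)‖^2 = ∑_{t,t'} ∑_{a<q} ee(a (t-t')/q)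
= q #{(t,t') : q ∣ t - t'}`.  (For the inner sum use the geometric sum; `h61.orth` needs
`|t - t'| < q`, so reduce mod `q` first, or use `ZMod` characters.) -/
def C3_stmt : Prop := ∀ (q : ℕ) (T : Finset ℕ), 0 < q →
  ∑ a ∈ range q, ‖∑ t ∈ T, ee ((a : ℝ) * t / q)‖ ^ 2 = q * (pc T q : ℝ)

/-- pq:C4.  Second moment of the model; uses C2, C3:
`theorem C4 (h2 : C2_stmt) (h3 : C3_stmt) : C4_stmt`.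
PROOF. `gm m c Q x = ∑_{r ∈ Fa Q} Hc m c r.2 r.1 ee (r.2 x / r.1)`; the term `r = ⟨1, 0⟩` is `1`
(`Hc_one` of `Pool.Agent.helper18.TG.WT1`).  So for `N > N₁`
`∑_{a ∈ T} (gm m c Q (N - a) - 1) = ∑_{r ∈ Fa Q} c r ee (N (r.2/r.1))`,
`c r = if r.1 = 1 then 0 else Hc m c r.2 r.1 * ∑_{a ∈ T} ee (-(r.2 a / r.1))`
(`(N - a : ℕ)` casts to `N - a`, `ee_add`).  C2 gives `≤ 5 U ∑_r ‖c r‖^2`; `‖Hc‖ ≤ 1/φ(q)` and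
`Hc = 0` unless `q` is squarefree and coprime to `m` (`Hc_bound`, `Hc_zero`), and
`‖∑_a ee(-(b a/q))‖ = ‖∑_a ee(b a/q)‖` (conjugate), so C3 gives
`∑_r ‖c r‖^2 ≤ ∑_{q ∈ sq m Q} φ(q)^(-2) q pc T q`. -/
def C4_stmt : Prop := ∀ (m c Q U N₁ : ℕ) (T : Finset ℕ), 0 < m → 1 ≤ Q → 2 ≤ U → Q ^ 4 ≤ U ^ 2 →
  (∀ a ∈ T, a ≤ N₁) →
  ∑ N ∈ Ioc N₁ U, ‖∑ a ∈ T, (gm m c Q (N - a) - 1)‖ ^ 2
    ≤ 5 * U * ∑ q ∈ sq m Q, (q : ℝ) / (Nat.totient q : ℝ) ^ 2 * (pc T q : ℝ)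

/-- pq:C5.  The circle method; uses C1, C4 and the theorem `fw_close` of
`Pool.Agent.helper95.TG.WT4`: `theorem C5 (h1 : C1_stmt) (h4 : C4_stmt) : C5_stmt`.
PROOF. `Q = ⌊(log U)^44⌋₊`; `F x = fw m c x - gm m c Q x`; `fw_close` (with `u = N = U`) and C1 give
`∑_{N ∈ Ioc N₁ U} ‖∑_{a ∈ T} F (N - a)‖^2 ≤ U^2 (log U)^(-28) #T`, and C4 (`Q ^ 4 ≤ U ^ 2`, `1 ≤ Q`
for large `U`) gives `∑_N ‖∑_a (gm (N - a) - 1)‖^2 ≤ 5 U η #T^2`.  So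
`∑_N (∑_a fw (N - a) - #T)^2 ≤ 2 U^2 (log U)^(-28) #T + 10 U η #T^2`.  Each bad `N` contributes at
least `#T^2/4`; so the number of bad `N` is `≤ 8 U^2 (log U)^(-28)/#T + 40 η U` and
`#T ≥ κ U/log U` makes the first term `≤ (8/κ) U (log U)^(-27) ≤ δ U` for large `U`.
(`#T > 0` for `U ≥ 3`.) -/
def C5_stmt : Prop := ∀ (m c : ℕ), 0 < m → Nat.Coprime c m → ∀ κ δ : ℝ, 0 < κ → 0 < δ →
  ∃ U₀ : ℕ, ∀ U : ℕ, U₀ ≤ U → ∀ (η : ℝ) (N₁ : ℕ) (T : Finset ℕ), (∀ a ∈ T, a ≤ N₁) →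
    κ * U / Real.log U ≤ #T →
    ∑ q ∈ sq m ⌊Real.log U ^ 44⌋₊, (q : ℝ) / (Nat.totient q : ℝ) ^ 2 * (pc T q : ℝ)
      ≤ η * (#T : ℝ) ^ 2 →
    (#{N ∈ Ioc N₁ U | ∑ a ∈ T, fw m c (N - a) < #T / 2} : ℝ) ≤ (40 * η + δ) * U

/-- pq:D1.  The set `S`.  PROOF. `m = primorial w`.  Each `k ∈ [1, π(Y)]` is `π(q)` for exactly one
prime `q ≤ Y` (`q = nth Nat.Prime (k-1)`); at least `⌊π(Y)/m⌋` of these `k` have `(k + n₀) % m = 0`.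
Drop the at most `w` primes `q ≤ w` (note `2 ≤ w`): for large `Y` at least `π(Y)/(2m)` primes
`q ∈ (w, Y]` with
`(π(q) + n₀) % m = 0` remain, each with `q % m` coprime to `m` (`q > w` prime, all prime factors of
`primorial w` are `≤ w`).  Pigeonhole over the `≤ m` residues `q % m`
(`exists_le_card_fiber_of_...`): some `b` has at least `π(Y)/(2m^2)` of them. -/
def D1_stmt : Prop := ∀ w : ℕ, 2 ≤ w → ∃ Y₀ : ℕ, ∀ Y : ℕ, Y₀ ≤ Y → ∀ n₀ : ℕ,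
  ∃ (b : ℕ) (S : Finset ℕ), b < primorial w ∧ Nat.Coprime b (primorial w) ∧
    (∀ q ∈ S, q.Prime ∧ q ≠ 2 ∧ q ≤ Y ∧ q % primorial w = b ∧
      (Nat.primeCounting q + n₀) % primorial w = 0) ∧
    Nat.primeCounting Y ≤ 2 * primorial w ^ 2 * #S

/-- `a(q) = (b + n₀) % m + m * α(q)`; the set of the `α(q)`, `q ∈ S`. -/
noncomputable def Tm (m : ℕ) (S : Finset ℕ) : Finset ℕ := S.image fun q => aq q / m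

/-- pq:D2.  Arithmetic of `Tm m S`.  PROOF. `aq q + π(q) = q` (`π(q) ≤ q`), so
`aq q ≡ b + n₀ mod m`, which gives the second claim (`Nat.mod_add_div`).  `aq` is injective on odd
primes (for `q < q'`: `π(q') ≤ π(q) + (q' - q - 1)` as `q + 1` is not prime), so `q ↦ aq q / m` is
injective on `S` (same residue mod `m`): first claim.  Last claim: for `d` coprime to `m`,
`aq q / m ≡ aq q' / m mod d` iff `aq q ≡ aq q' mod d`; so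
`pc (Tm m S) d = #{(q,q') ∈ S × S | aq q ≡ aq q' mod d} = ∑_q #{q' | aq q' % d = aq q % d}`. -/
def D2_stmt : Prop := ∀ (m b n₀ Y : ℕ) (S : Finset ℕ), 0 < m →
  (∀ q ∈ S, q.Prime ∧ q ≠ 2 ∧ q ≤ Y ∧ q % m = b ∧ (Nat.primeCounting q + n₀) % m = 0) →
  #(Tm m S) = #S ∧ (∀ q ∈ S, aq q = (b + n₀) % m + m * (aq q / m)) ∧
  (∀ a ∈ Tm m S, a ≤ Y / m) ∧
  ∀ d : ℕ, 0 < d → Nat.Coprime d m → ∀ K : ℝ,
    (∀ c : ℕ, (#{q ∈ S | aq q % d = c % d} : ℝ) ≤ K) → (pc (Tm m S) d : ℝ) ≤ K * #S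

/-- pq:D3.  From `n` to `N`; uses D2: `theorem D3 (h2 : D2_stmt) : D3_stmt`.
PROOF. `ρ = (b + n₀) % m`, `c = m - b` (`b < m`, so `0 < c ≤ m`).  For `n ∈ Ioc X₁ X`,
`n ≡ n₀ mod m`: `n ≡ ρ + c mod m` (`ρ + c ≡ b + n₀ + m - b`), and `n > X₁ ≥ Y + 3 m + 2 > ρ + c`, so
`n = ρ + c + m N` with `N = (n - ρ - c)/m`, `N ≤ X/m`, and `m N > Y` gives `N > Y/m`.
`n ↦ N` is injective, so it is enough to show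
`∑_{a ∈ Tm m S} fw m c (N - a) ≤ log X * rep n`.
For `a = aq q / m` (`q ∈ S`, the map is injective): `m (N - a) + c = n - ρ - m a = n - aq q`, and if
this is prime then `p = n - aq q ≥ n - Y > 2`, `p ≤ n ≤ X`,
`n + π(q) = p + q`, `q ≤ Y ≤ n`: so `(p, q)` is a
pair counted by `rep n`, and `fw m c (N - a) = (φ(m)/m) log p ≤ log X`. -/
def D3_stmt : Prop := ∀ (m b n₀ Y X₁ X : ℕ) (S : Finset ℕ), 0 < m → b < m →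
  (∀ q ∈ S, q.Prime ∧ q ≠ 2 ∧ q ≤ Y ∧ q % m = b ∧ (Nat.primeCounting q + n₀) % m = 0) →
  Y + 3 * m + 2 ≤ X₁ →
  #{n ∈ Ioc X₁ X | n % m = n₀ % m ∧ (rep n : ℝ) * Real.log X < (#(Tm m S) : ℝ) / 2}
    ≤ #{N ∈ Ioc (Y / m) (X / m) |
        ∑ a ∈ Tm m S, fw m (m - b) (N - a) < (#(Tm m S) : ℝ) / 2}

/-- pq:D4 (helper29).  One residue class; uses A4, B4, C5, D1, D2, D3. -/
def D4_stmt : Prop := ∀ ε : ℝ, 0 < ε → ε ≤ 1 → ∃ m : ℕ, 0 < m ∧ ∃ c : ℝ, 0 < c ∧ ∃ X₀ : ℕ,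
  ∀ X : ℕ, X₀ ≤ X → ∀ n₀ : ℕ,
    (#{n ∈ Ioc ⌊ε * X / 2⌋₊ X | n % m = n₀ % m ∧ (rep n : ℝ) < c * n / Real.log n ^ 2} : ℝ)
      ≤ ε / (2 * m) * X

/-- pq:D5 (helper29).  The final theorem; uses D4. -/
def D5_stmt : Prop := ∀ ε : ℝ, 0 < ε → ∃ c : ℝ, 0 < c ∧ ∃ X₀ : ℕ, ∀ X : ℕ, X₀ ≤ X →
  (#{n ∈ Icc 1 X | (rep n : ℝ) < c * n / Real.log n ^ 2} : ℝ) ≤ ε * X

end Pool.Agent.helper29.PQ
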